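import Pool.Agent.H64.XL.Defs

/-!
# THEOREM DIM for any number of Julia critical points (MP_8f2e1c_an, think 1880, sections 4, 5): limits of the windows `T_k`

`WS2`: the windows `T_k = Φ n k '' ball 0 1` in the scale of `T_0 = X_0` at `c` (`c = 0`, `n`: number in the sequence), `F n k : T_k → X_0`
of degree `2 ^ (u k)`, `F n k (Φ n k x) = Φ n 0 (BB (u k) x)` with one common sequence of degree two maps of the disc (`u 0 = 0`).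
`WL2`: the limits along the ultrafilter (the fields of GEO* which do not involve lifts, `ω = b1`), together with the convergence.
-/

set_option autoImplicit false

open Filter Topology Metric Set

namespace Pool.Agent.H23.XW2

open Pool.Agent.H66.GEO (Bl BB)
open Pool.Agent.H56.UD (Ph dm Pn)
open Pool.Agent.H64.XL (b1)

/-- sequences of windows in the scale of `X_0` -/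
structure WS2 (𝒰 : Ultrafilter ℕ) (th r : ℝ) (P : ℕ → Set ℂ) (Φ F : ℕ → ℕ → ℂ → ℂ) (α : ℕ → ℕ → ℂ)
    (u : ℕ → ℕ) : Prop where
  th0 : 0 < th
  thr : th < r
  r1 : r < 1
  u0 : u 0 = 0
  Pc : ∀ᶠ n in (𝒰 : Filter ℕ), IsClosed (P n)
  z0 : ∀ᶠ n in (𝒰 : Filter ℕ), Φ n 0 0 = 0
  bd : ∃ C : ℝ, ∀ᶠ n in (𝒰 : Filter ℕ), ∀ x ∈ ball (0 : ℂ) 1, ‖Φ n 0 x‖ ≤ C
  sy : ∀ x ∈ ball (0 : ℂ) 1, Tendsto (fun n => Φ n 0 (-x) ^ 2 - Φ n 0 x ^ 2) (𝒰 : Filter ℕ) (𝓝 0)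
  al : ∀ m, ∀ᶠ n in (𝒰 : Filter ℕ), ‖α n m‖ < 1
  cv : ∀ m, ∀ᶠ n in (𝒰 : Filter ℕ), ‖BB b1 (α n) m (α n m)‖ ≤ th
  dΦ : ∀ k, ∀ᶠ n in (𝒰 : Filter ℕ), DifferentiableOn ℂ (Φ n k) (ball 0 1)
  iΦ : ∀ k, ∀ᶠ n in (𝒰 : Filter ℕ), InjOn (Φ n k) (ball 0 1)
  zb : ∀ k, ∃ C : ℝ, ∀ᶠ n in (𝒰 : Filter ℕ), ‖Φ n k 0‖ ≤ C
  lo : ∀ k, ∃ C : ℝ, 0 < C ∧ ∀ᶠ n in (𝒰 : Filter ℕ), C ≤ ‖deriv (Φ n k) 0‖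
  up : ∀ k, ∃ C : ℝ, ∀ᶠ n in (𝒰 : Filter ℕ), ‖deriv (Φ n k) 0‖ ≤ C
  rel : ∀ k, ∀ᶠ n in (𝒰 : Filter ℕ), ∀ x ∈ ball (0 : ℂ) 1, F n k (Φ n k x) = Φ n 0 (BB b1 (α n) (u k) x)
  off : ∀ k, ∀ᶠ n in (𝒰 : Filter ℕ), ∀ x ∈ ball (0 : ℂ) 1, th < ‖BB b1 (α n) (u k) x‖ → Φ n k x ∉ P n
  cr : ∀ k, ∀ᶠ n in (𝒰 : Filter ℕ), ∃ x y : ℂ, ‖x‖ = r ∧ ‖y‖ < 1 ∧ ‖BB b1 (α n) (u k) y‖ = r ∧ Φ n k y = Φ n 0 x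

/-- the limit -/
structure WL2 (𝒰 : Ultrafilter ℕ) (th r : ℝ) (P : ℕ → Set ℂ) (Φ F : ℕ → ℕ → ℂ → ℂ) (α : ℕ → ℕ → ℂ)
    (u : ℕ → ℕ) (φ F' : ℕ → ℂ → ℂ) (α' : ℕ → ℂ) : Prop where
  cφ : ∀ k, TendstoLocallyUniformlyOn (fun n => Φ n k) (φ k) (𝒰 : Filter ℕ) (ball 0 1)
  cα : ∀ m, Tendsto (fun n => α n m) (𝒰 : Filter ℕ) (𝓝 (α' m))
  cK : ∀ k, ∀ K : Set ℂ, IsCompact K → K ⊆ φ k '' ball 0 1 → ∀ᶠ n in (𝒰 : Filter ℕ), K ⊆ Φ n k '' ball 0 1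
  cF : ∀ k, TendstoLocallyUniformlyOn (fun n => F n k) (F' k) (𝒰 : Filter ℕ) (φ k '' ball 0 1)
  z0 : φ 0 0 = 0
  oφ : ∀ x ∈ ball (0 : ℂ) 1, φ 0 (-x) = - φ 0 x
  bφ : Bornology.IsBounded (φ 0 '' ball 0 1)
  hα : ∀ m, ‖α' m‖ < 1
  cv : ∀ m, ‖BB b1 α' m (α' m)‖ ≤ th
  dφ : ∀ k, DifferentiableOn ℂ (φ k) (ball 0 1)
  iφ : ∀ k, InjOn (φ k) (ball 0 1)
  op : ∀ k, IsOpen (φ k '' ball 0 1)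
  dF : ∀ k, DifferentiableOn ℂ (F' k) (φ k '' ball 0 1)
  rel : ∀ k, ∀ x ∈ ball (0 : ℂ) 1, F' k (φ k x) = φ 0 (BB b1 α' (u k) x)
  off : ∀ k, ∀ x ∈ ball (0 : ℂ) 1, th < ‖BB b1 α' (u k) x‖ → φ k x ∉ Ph 𝒰 P
  cr : ∀ k, ∃ x y : ℂ, ‖x‖ = r ∧ ‖y‖ < 1 ∧ ‖BB b1 α' (u k) y‖ = r ∧ φ k y = φ 0 x

end Pool.Agent.H23.XW2
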