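import Pool.Agent.H23.XW2.Lim
import Pool.Agent.H3.SZ.Tow

/-!
# THEOREM DIM, general case: no attraction in the limit (1880, section 6)

`lim_ne`: if the rescaled iterates `w ↦ (f^[K n] (c + R n w) - c) / R n` at a critical point `c` converge locally uniformly near `0` to `g`, `R n → 0`,
then `g 0 ≠ 0`: otherwise `g 0 = 0`, `g' 0 = 0` (critical point) and small discs about `c` are mapped into themselves (H3/SZ `noattr`).
-/

set_option autoImplicit false

open Filter Topology Metric Set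

namespace Pool.Agent.H23.XW2

open Pool.Agent.H56.UD (PS dm)
open Pool.Agent.H23.XW

variable {f : ℂ → ℂ} {U J P Cr : Set ℂ} {δ : ℝ} {η : ℂ → ℂ → ℂ} {ρ : ℝ} {𝒰 : Ultrafilter ℕ} {c : ℂ}

/-- `g 0 = 0`, `g' 0 = 0`: small discs are mapped into themselves -/
theorem att {F : ℕ → ℂ → ℂ} {g : ℂ → ℂ} {T : Set ℂ} (hT : IsOpen T) (h0 : (0 : ℂ) ∈ T)
    (hl : TendstoLocallyUniformlyOn F g (𝒰 : Filter ℕ) T) (hg : DifferentiableAt ℂ g 0) (hg0 : g 0 = 0) (hd : deriv g 0 = 0)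
    {e0 : ℝ} (he0 : 0 < e0) : ∃ ε : ℝ, 0 < ε ∧ ε ≤ e0 ∧ closedBall (0 : ℂ) ε ⊆ T ∧ ∀ᶠ n in (𝒰 : Filter ℕ), ∀ w ∈ ball (0 : ℂ) ε, F n w ∈ ball (0 : ℂ) ε := by
  have h1 : HasDerivAt g 0 0 := by
    have := hg.hasDerivAt
    rwa [hd] at this
  have h2 := (hasDerivAt_iff_isLittleO.1 h1).def (c := 1 / 2) (by norm_num)
  obtain ⟨e1, he1, h3⟩ := Metric.eventually_nhds_iff.1 h2
  obtain ⟨e2, he2, h4⟩ := Metric.isOpen_iff.1 hT 0 h0
  have hm : 0 < min e0 (min e1 e2) := lt_min he0 (lt_min he1 he2)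
  have hm0 := min_le_left e0 (min e1 e2)
  have hm1 : min e0 (min e1 e2) ≤ e1 := (min_le_right _ _).trans (min_le_left _ _)
  have hm2 : min e0 (min e1 e2) ≤ e2 := (min_le_right _ _).trans (min_le_right _ _)
  have hsub : closedBall (0 : ℂ) (min e0 (min e1 e2) / 2) ⊆ T := by
    intro w hw
    refine h4 ?_
    have h5 : ‖w‖ ≤ min e0 (min e1 e2) / 2 := by simpa using hw
    simp only [mem_ball, dist_zero_right]
    linarith
  refine ⟨min e0 (min e1 e2) / 2, by positivity, by linarith, hsub, ?_⟩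
  have h6 := (tendstoLocallyUniformlyOn_iff_forall_isCompact hT).1 hl _ hsub (isCompact_closedBall _ _)
  rw [Metric.tendstoUniformlyOn_iff] at h6
  filter_upwards [h6 (min e0 (min e1 e2) / 4) (by positivity)] with n hn w hw
  have h5 : ‖w‖ < min e0 (min e1 e2) / 2 := by simpa using hw
  have h6 := hn w (by simpa using h5.le)
  rw [dist_comm, dist_eq_norm] at h6
  have h7 : ‖g w‖ ≤ 1 / 2 * ‖w‖ := by
    have h8 := h3 (y := w) (by
      rw [dist_zero_right]
      linarith)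
    simpa [hg0] using h8
  have h8 := norm_add_le (F n w - g w) (g w)
  rw [sub_add_cancel] at h8
  simp only [mem_ball, dist_zero_right]
  linarith

/-- iterates are differentiable where they are defined -/
theorem it_diff (hU : IsOpen U) (hf : DifferentiableOn ℂ f U) : ∀ (K : ℕ) (w : ℂ), (∀ j < K, f^[j] w ∈ U) →
    DifferentiableAt ℂ (f^[K]) w := by
  intro K
  induction K with
  | zero => intro w _; simp
  | succ K ih =>
    intro w hw
    rw [Function.iterate_succ']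
    exact DifferentiableAt.comp w (hf.differentiableAt (hU.mem_nhds (hw K (Nat.lt_succ_self K)))) (ih w fun j hj => hw j (by omega))

/-- `f' c = 0` -/
theorem crit_der (h : PS f U J P Cr δ η ρ) (hc : c ∈ Cr) : deriv f c = 0 := by
  obtain ⟨hη, hηi, hη0, hηf⟩ := h.nf c hc
  have h0 : (0 : ℂ) ∈ ball (0 : ℂ) ρ := mem_ball_self h.hρ
  have hdη : HasDerivAt (η c) (deriv (η c) 0) 0 := (hη.differentiableAt (isOpen_ball.mem_nhds h0)).hasDerivAt
  have hd0 : deriv (η c) 0 ≠ 0 := ih_der isOpen_ball hη hηi h0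
  have hcU : U ∈ 𝓝 c := h.Uo.mem_nhds (h.JU (h.CJ hc))
  have hdf : HasDerivAt f (deriv f c) (η c 0) := by
    rw [hη0]
    exact (h.fd.differentiableAt hcU).hasDerivAt
  have h1 : HasDerivAt (fun v => f (η c v)) (deriv f c * deriv (η c) 0) 0 := HasDerivAt.comp (0 : ℂ) hdf hdη
  have h2 : HasDerivAt (fun v : ℂ => f c + v ^ 2) 0 0 := by
    have := ((hasDerivAt_pow 2 (0 : ℂ)).const_add (f c))
    simpa using this
  have h3 : (fun v => f (η c v)) =ᶠ[𝓝 0] fun v : ℂ => f c + v ^ 2 := by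
    filter_upwards [isOpen_ball.mem_nhds h0] with v hv
    exact (hηf v hv).2
  have h4 := (h1.congr_of_eventuallyEq h3.symm).unique h2
  exact (mul_eq_zero.1 h4).resolve_right hd0

theorem crit_it (h : PS f U J P Cr δ η ρ) (hc : c ∈ Cr) {K : ℕ} (hK : 1 ≤ K) : deriv (f^[K]) c = 0 := by
  obtain ⟨K, rfl⟩ : ∃ K', K = K' + 1 := ⟨K - 1, by omega⟩
  have hcJ := h.CJ hc
  have h1 : DifferentiableAt ℂ (f^[K]) (f c) := it_diff h.Uo h.fd K (f c) fun j _ =>
    h.JU (Pool.Agent.H56.UD.J_it h j (h.Jf c hcJ))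
  have h2 : DifferentiableAt ℂ f c := h.fd.differentiableAt (h.Uo.mem_nhds (h.JU hcJ))
  rw [Function.iterate_succ]
  have h3 := deriv_comp c h1 h2
  rw [h3, crit_der h hc, mul_zero]

/-- no attraction in the limit -/
theorem lim_ne (h : PS f U J P Cr δ η ρ) (hc : c ∈ Cr) {R : ℕ → ℂ} (hR : Tendsto R (𝒰 : Filter ℕ) (𝓝 0))
    (hR0 : ∀ᶠ n in (𝒰 : Filter ℕ), R n ≠ 0) {K : ℕ → ℕ} (hK : ∀ᶠ n in (𝒰 : Filter ℕ), 1 ≤ K n) {F : ℕ → ℂ → ℂ} {g : ℂ → ℂ} {T : Set ℂ}
    (hT : IsOpen T) (h0 : (0 : ℂ) ∈ T)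
    (hF : ∀ C : Set ℂ, IsCompact C → C ⊆ T → ∀ᶠ n in (𝒰 : Filter ℕ), ∀ w ∈ C, (∀ j < K n, f^[j] (c + R n * w) ∈ U) ∧
      f^[K n] (c + R n * w) = c + R n * F n w)
    (hl : TendstoLocallyUniformlyOn F g (𝒰 : Filter ℕ) T) : g 0 ≠ 0 := by
  intro hg0
  obtain ⟨e, he, heT⟩ := Metric.isOpen_iff.1 hT 0 h0
  have hcb : closedBall (0 : ℂ) (e / 2) ⊆ T := (closedBall_subset_ball (by linarith)).trans heT
  have hev := (hF _ (isCompact_closedBall (0 : ℂ) (e / 2)) hcb).and hR0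
  have hlb : TendstoLocallyUniformlyOn F g (𝒰 : Filter ℕ) (ball 0 (e / 2)) := hl.mono (ball_subset_closedBall.trans hcb)
  have h0b : (0 : ℂ) ∈ ball (0 : ℂ) (e / 2) := mem_ball_self (by positivity)
  have hFe : ∀ᶠ n in (𝒰 : Filter ℕ), ∀ w ∈ ball (0 : ℂ) (e / 2), F n w = (f^[K n] (c + R n * w) - c) / R n := by
    filter_upwards [hev] with n hn w hw
    have h1 := (hn.1 w (ball_subset_closedBall hw)).2
    rw [h1]
    have := hn.2
    field_simp
    ring
  have hFd : ∀ᶠ n in (𝒰 : Filter ℕ), DifferentiableOn ℂ (F n) (ball 0 (e / 2)) := by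
    filter_upwards [hev, hFe] with n hn hn2 w hw
    have h1 := it_diff h.Uo h.fd (K n) (c + R n * w) (hn.1 w (ball_subset_closedBall hw)).1
    have h2 : DifferentiableAt ℂ (fun w => (f^[K n] (c + R n * w) - c) / R n) w := by
      have h3 : DifferentiableAt ℂ (fun w : ℂ => c + R n * w) w := by fun_prop
      exact ((DifferentiableAt.comp (g := f^[K n]) w h1 h3).sub_const c).div_const _
    have h4 : F n =ᶠ[𝓝 w] fun w => (f^[K n] (c + R n * w) - c) / R n := by
      filter_upwards [isOpen_ball.mem_nhds hw] with v hv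
      exact hn2 v hv
    exact (h4.differentiableAt_iff.2 h2).differentiableWithinAt
  have hFd0 : ∀ᶠ n in (𝒰 : Filter ℕ), deriv (F n) 0 = 0 := by
    filter_upwards [hev, hFe, hK] with n hn hn2 hn3
    have h4 : F n =ᶠ[𝓝 0] fun w => (f^[K n] (c + R n * w) - c) / R n := by
      filter_upwards [isOpen_ball.mem_nhds h0b] with v hv
      exact hn2 v hv
    have h1 : HasDerivAt (f^[K n]) 0 (c + R n * 0) := by
      rw [mul_zero, add_zero]
      have h5 := (it_diff h.Uo h.fd (K n) c fun j _ => h.JU (Pool.Agent.H56.UD.J_it h j (h.CJ hc))).hasDerivAt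
      rwa [crit_it h hc hn3] at h5
    have h6 : HasDerivAt (fun w : ℂ => c + R n * w) (R n) 0 := by
      simpa using ((hasDerivAt_id (0 : ℂ)).const_mul (R n)).const_add c
    have h7 : HasDerivAt (fun w : ℂ => f^[K n] (c + R n * w)) (0 * R n) 0 := HasDerivAt.comp (0 : ℂ) h1 h6
    have h8 := (h7.sub_const c).div_const (R n)
    rw [h4.deriv_eq, h8.deriv, zero_mul, zero_div]
  have hgd : DifferentiableOn ℂ g (ball 0 (e / 2)) := hlb.differentiableOn hFd isOpen_ball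
  have hgda : DifferentiableAt ℂ g 0 := hgd.differentiableAt (isOpen_ball.mem_nhds h0b)
  have hd0 : deriv g 0 = 0 := by
    have h1 := (Pool.Agent.H56.UD.ulim_deriv 𝒰 isOpen_ball hFd hlb).tendsto_at h0b
    exact tendsto_nhds_unique h1 (tendsto_const_nhds.congr' (hFd0.mono fun n hn => hn.symm))
  obtain ⟨a, ha, hae, haT, hmap⟩ := att hT h0 hl hgda hg0 hd0 (show 0 < e / 4 by positivity)
  obtain ⟨d, hd, hno⟩ := Pool.Agent.H3.SZ.noattr h
  have hsm : ∀ᶠ n in (𝒰 : Filter ℕ), ‖R n‖ < d / a := by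
    have h1 := hR.norm
    rw [norm_zero] at h1
    exact h1.eventually (gt_mem_nhds (div_pos hd ha))
  obtain ⟨n, ⟨⟨⟨⟨hn1, hRn⟩, hn2⟩, hn3⟩, hn5⟩⟩ := (((hev.and hmap).and hsm).and hK).exists
  have hRp : 0 < ‖R n‖ := norm_pos_iff.2 hRn
  refine hno (ball c (a * ‖R n‖)) (K n) c isOpen_ball (mem_ball_self (by positivity)) (h.CJ hc) ?_ hn5 ?_
  · refine ball_subset_ball ?_
    have h1 : ‖R n‖ * a ≤ d / a * a := mul_le_mul_of_nonneg_right hn3.le ha.le
    rw [div_mul_cancel₀ _ ha.ne'] at h1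
    linarith
  · intro w hw
    have h1 : (w - c) / R n ∈ ball (0 : ℂ) a := by
      rw [mem_ball, dist_zero_right, norm_div, div_lt_iff₀ hRp]
      simpa [dist_eq_norm] using hw
    have h2 := hn2 _ h1
    have h3 : c + R n * ((w - c) / R n) = w := by
      field_simp
      ring
    have h4 : (w - c) / R n ∈ closedBall (0 : ℂ) (e / 2) := by
      have h5 : ‖(w - c) / R n‖ < a := by simpa using h1
      have h6 : ‖(w - c) / R n‖ ≤ e / 2 := by linarith
      simpa using h6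
    have h5 := (hn1 _ h4).2
    rw [h3] at h5
    rw [h5, mem_ball, dist_eq_norm, add_sub_cancel_left, norm_mul, mul_comm]
    have h6 : ‖F n ((w - c) / R n)‖ < a := by simpa using h2
    gcongr

end Pool.Agent.H23.XW2
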