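import Pool.Agent.H23.XW2.Defs
import Pool.Agent.H23.XW.Bas
import Pool.Agent.H3.SZ.Bb

/-!
# THEOREM DIM, general case: the limits of the windows `T_k` exist
-/

set_option autoImplicit false

open Filter Topology Metric Set

namespace Pool.Agent.H23.XW2

open Pool.Agent.H66.GEO (Bl BB)
open Pool.Agent.H56.UD (Ph ulim_loc ulim_inj ulim_pre ulim_deriv)
open Pool.Agent.H64.XL (b1)
open Pool.Agent.H23.XW

variable {𝒰 : Ultrafilter ℕ} {th r : ℝ} {P : ℕ → Set ℂ} {Φ F : ℕ → ℕ → ℂ → ℂ} {α : ℕ → ℕ → ℂ} {u : ℕ → ℕ}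

/-- limits of univalent functions on the disc -/
theorem uni_lim {G : ℕ → ℂ → ℂ} (hd : ∀ᶠ n in (𝒰 : Filter ℕ), DifferentiableOn ℂ (G n) (ball 0 1))
    (hi : ∀ᶠ n in (𝒰 : Filter ℕ), InjOn (G n) (ball 0 1)) {C0 C1 C2 : ℝ} (h0 : ∀ᶠ n in (𝒰 : Filter ℕ), ‖G n 0‖ ≤ C0)
    (hC1 : 0 < C1) (h1 : ∀ᶠ n in (𝒰 : Filter ℕ), C1 ≤ ‖deriv (G n) 0‖) (h2 : ∀ᶠ n in (𝒰 : Filter ℕ), ‖deriv (G n) 0‖ ≤ C2) :
    ∃ g : ℂ → ℂ, DifferentiableOn ℂ g (ball 0 1) ∧ InjOn g (ball 0 1) ∧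
      TendstoLocallyUniformlyOn G g (𝒰 : Filter ℕ) (ball 0 1) := by
  obtain ⟨g, hg, hl⟩ : ∃ g : ℂ → ℂ, DifferentiableOn ℂ g (ball 0 1) ∧
      TendstoLocallyUniformlyOn G g (𝒰 : Filter ℕ) (ball 0 1) := by
    refine ulim_loc 𝒰 isOpen_ball ?_
    intro u hu
    have hu1 : ‖u‖ < 1 := by simpa using hu
    obtain ⟨K, hK1, hK⟩ := Pool.Agent.H3.SZ.gr (ρ := (1 + ‖u‖) / 2) (by linarith)
    refine ⟨(1 - ‖u‖) / 2, K * C2 + C0, by linarith, ?_, ?_⟩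
    · intro v hv
      have h1 : ‖v - u‖ < (1 - ‖u‖) / 2 := by simpa [dist_eq_norm] using hv
      have h2 := norm_add_le (v - u) u
      rw [sub_add_cancel] at h2
      simp only [mem_ball, dist_zero_right]
      linarith
    · filter_upwards [h2, hd, hi, h0] with n h1 h2 h3 h4
      have hsub : ∀ v ∈ ball u ((1 - ‖u‖) / 2), ‖v‖ ≤ (1 + ‖u‖) / 2 ∧ ‖v‖ < 1 := by
        intro v hv
        have h5 : ‖v - u‖ < (1 - ‖u‖) / 2 := by simpa [dist_eq_norm] using hv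
        have h6 := norm_add_le (v - u) u
        rw [sub_add_cancel] at h6
        exact ⟨by linarith, by linarith⟩
      refine ⟨h2.mono fun v hv => by simpa using (hsub v hv).2, fun v hv => ?_⟩
      have h7 := hK (G n) h2 h3 v (hsub v hv).1
      have h8 := norm_add_le (G n v - G n 0) (G n 0)
      rw [sub_add_cancel] at h8
      have h9 : K * ‖deriv (G n) 0‖ ≤ K * C2 := by gcongr
      linarith
  refine ⟨g, hg, ?_, hl⟩
  refine ulim_inj 𝒰 isOpen_ball (convex_ball 0 1).isPreconnected (hd.and hi) hl ?_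
  by_contra hcon
  push Not at hcon
  have h3 := (ulim_deriv 𝒰 isOpen_ball hd hl).tendsto_at (mem_ball_self one_pos : (0 : ℂ) ∈ ball (0 : ℂ) 1)
  have h4 : C1 ≤ ‖deriv g 0‖ := ge_of_tendsto h3.norm h1
  have h5 : deriv g 0 = 0 := by
    have h4 : g =ᶠ[𝓝 0] fun _ => g 0 := by
      filter_upwards [ball_mem_nhds (0 : ℂ) one_pos] with v hv
      exact hcon v hv 0 (mem_ball_self one_pos)
    rw [h4.deriv_eq]
    exact deriv_const _ _
  rw [h5, norm_zero] at h4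
  linarith

/-- compact subsets of the image of the limit -/
theorem uni_cK {G : ℕ → ℂ → ℂ} {g : ℂ → ℂ} (hd : ∀ᶠ n in (𝒰 : Filter ℕ), DifferentiableOn ℂ (G n) (ball 0 1))
    (hi : InjOn g (ball 0 1)) (hl : TendstoLocallyUniformlyOn G g (𝒰 : Filter ℕ) (ball 0 1)) {K : Set ℂ} (hK : IsCompact K)
    (hKs : K ⊆ g '' ball 0 1) : ∀ᶠ n in (𝒰 : Filter ℕ), K ⊆ G n '' ball 0 1 := by
  by_contra hcon
  rw [← Ultrafilter.eventually_not] at hcon
  have h1 : ∀ n : ℕ, ∃ w : ℂ, ¬ K ⊆ G n '' ball 0 1 → w ∈ K ∧ w ∉ G n '' ball 0 1 := by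
    intro n
    by_cases hn : K ⊆ G n '' ball 0 1
    · exact ⟨0, fun h => absurd hn h⟩
    · obtain ⟨w, hw1, hw2⟩ := not_subset.1 hn
      exact ⟨w, fun _ => ⟨hw1, hw2⟩⟩
  choose w hw using h1
  obtain ⟨a, haK, hla⟩ := lim_K 𝒰 hK (v := w) (hcon.mono fun n hn => (hw n hn).1)
  obtain ⟨x, hx, hxa⟩ := hKs haK
  rw [← hxa] at hla
  obtain ⟨v, hv, -⟩ := ulim_pre 𝒰 isOpen_ball hd hl hi hx hla
  obtain ⟨n, hn1, hn2⟩ := (hcon.and hv).exists
  exact (hw n hn1).2 ⟨v n, hn2.1, hn2.2⟩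

/-- the collar is off the limit set -/
theorem uni_off {G : ℕ → ℂ → ℂ} {g : ℂ → ℂ} (hd : ∀ᶠ n in (𝒰 : Filter ℕ), DifferentiableOn ℂ (G n) (ball 0 1))
    (hi : InjOn g (ball 0 1)) (hl : TendstoLocallyUniformlyOn G g (𝒰 : Filter ℕ) (ball 0 1))
    (hPc : ∀ᶠ n in (𝒰 : Filter ℕ), IsClosed (P n)) {x : ℂ} (hx : x ∈ ball (0 : ℂ) 1)
    (hoff : ∀ v : ℕ → ℂ, Tendsto v (𝒰 : Filter ℕ) (𝓝 x) → ∀ᶠ n in (𝒰 : Filter ℕ), v n ∈ ball (0 : ℂ) 1 → G n (v n) ∉ P n) :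
    g x ∉ Ph 𝒰 P := by
  intro hP
  have h1 : ∀ n : ℕ, ∃ y : ℂ, (IsClosed (P n) ∧ (P n).Nonempty) → y ∈ P n ∧ infDist (g x) (P n) = dist (g x) y := by
    intro n
    by_cases hn : IsClosed (P n) ∧ (P n).Nonempty
    · obtain ⟨y, hy1, hy2⟩ := hn.1.exists_infDist_eq_dist hn.2 (g x)
      exact ⟨y, fun _ => ⟨hy1, hy2⟩⟩
    · exact ⟨0, fun h => absurd h hn⟩
  choose y hy using h1
  have h2 : Tendsto y (𝒰 : Filter ℕ) (𝓝 (g x)) := by
    rw [Metric.tendsto_nhds]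
    intro ε hε
    filter_upwards [hP ε hε, hPc] with n hn hc
    obtain ⟨p, hp, hp2⟩ := hn
    have h3 := (hy n ⟨hc, ⟨p, hp⟩⟩).2
    have h4 := infDist_le_dist_of_mem (x := g x) hp
    rw [dist_comm, ← h3]
    rw [dist_comm, dist_eq_norm] at h4
    linarith
  obtain ⟨v, hv, hvx⟩ := ulim_pre 𝒰 isOpen_ball hd hl hi hx h2
  obtain ⟨n, ⟨⟨⟨hn1, hn2⟩, hn3⟩, hn5⟩⟩ := (((hv.and hPc).and (hP 1 one_pos)).and (hoff v hvx)).exists
  obtain ⟨p, hp, -⟩ := hn3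
  refine hn5 hn1.1 ?_
  rw [hn1.2]
  exact (hy n ⟨hn2, ⟨p, hp⟩⟩).1

/-- the limits of the parameters -/
theorem al_lim (hth1 : th < 1) (hal : ∀ m, ∀ᶠ n in (𝒰 : Filter ℕ), ‖α n m‖ < 1)
    (hcv : ∀ m, ∀ᶠ n in (𝒰 : Filter ℕ), ‖BB b1 (α n) m (α n m)‖ ≤ th) :
    ∃ α' : ℕ → ℂ, (∀ s, Tendsto (fun n => α n s) (𝒰 : Filter ℕ) (𝓝 (α' s))) ∧
    (∀ s, ‖α' s‖ < 1) ∧ ∀ s, ‖BB b1 α' s (α' s)‖ ≤ th := by
  have h1 : ∀ s, ∃ a : ℂ, ‖a‖ ≤ 1 ∧ Tendsto (fun n => α n s) (𝒰 : Filter ℕ) (𝓝 a) := fun s =>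
    lim_bd 𝒰 ((hal s).mono fun n hn => hn.le)
  choose α' h2 h3 using h1
  have h4 : ∀ s, (∀ i < s, ‖α' i‖ < 1) → ‖BB b1 α' s (α' s)‖ ≤ th := by
    intro s hs
    have h5 := (bb_tend h3 s hs _ _ (h3 s) (h2 s)).norm
    exact le_of_tendsto h5 (hcv s)
  have h6 : ∀ s, ‖α' s‖ < 1 := by
    intro s
    induction s using Nat.strong_induction_on with
    | _ s ih =>
      refine lt_of_le_of_ne (h2 s) fun h7 => ?_
      have h8 := (bb_norm s ih (α' s) (h2 s)).2.2 h7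
      have h9 := h4 s ih
      linarith
  exact ⟨α', h3, h6, fun s => h4 s fun i _ => h6 i⟩

theorem bb_d1 {a : ℕ → ℂ} (ha : ∀ m, ‖a m‖ < 1) : ∀ s : ℕ, DifferentiableOn ℂ (BB b1 a s) (ball 0 1) := by
  intro s
  induction s with
  | zero => exact differentiableOn_id
  | succ s ih =>
    have h1 : DifferentiableOn ℂ (Bl 1 (a s)) (ball 0 1) := by
      intro x hx
      have hx1 : ‖x‖ < 1 := by simpa using hx
      have h1 : DifferentiableAt ℂ (Bl 1 (a s)) x := by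
        unfold Bl
        refine DifferentiableAt.div (by fun_prop) (by fun_prop) (bl_den (ha s) hx1.le)
      exact h1.differentiableWithinAt
    exact DifferentiableOn.comp (g := BB b1 a s) (f := Bl 1 (a s)) ih h1 fun x hx => by
      have hx1 : ‖x‖ < 1 := by simpa using hx
      have h2 := (bl_norm (ha s) hx1.le).2.1 hx1
      simpa using h2

theorem ws2_lim (h : WS2 𝒰 th r P Φ F α u) :
    ∃ (φ F' : ℕ → ℂ → ℂ) (α' : ℕ → ℂ), WL2 𝒰 th r P Φ F α u φ F' α' := by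
  have h01 : (0 : ℂ) ∈ ball (0 : ℂ) 1 := mem_ball_self one_pos
  obtain ⟨α', ha, ha1, hcv⟩ := al_lim (h.thr.trans h.r1) h.al h.cv
  obtain ⟨C2, hb⟩ := h.bd
  have hθ : ∀ k, ∃ g : ℂ → ℂ, DifferentiableOn ℂ g (ball 0 1) ∧ InjOn g (ball 0 1) ∧
      TendstoLocallyUniformlyOn (fun n => Φ n k) g (𝒰 : Filter ℕ) (ball 0 1) := by
    intro k
    obtain ⟨C0, h0⟩ := h.zb k
    obtain ⟨C1, hC1, h1⟩ := h.lo k
    obtain ⟨C2, h2⟩ := h.up k
    exact uni_lim (h.dΦ k) (h.iΦ k) h0 hC1 h1 h2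
  choose φ hφd hφi hφl using hθ
  have hφ0 : φ 0 0 = 0 := by
    refine tendsto_nhds_unique ((hφl 0).tendsto_at h01) ?_
    exact tendsto_const_nhds.congr' (h.z0.mono fun n hn => hn.symm)
  have hodd : ∀ x ∈ ball (0 : ℂ) 1, φ 0 (-x) = - φ 0 x := by
    intro x hx
    have hx' : -x ∈ ball (0 : ℂ) 1 := by simpa using hx
    have h1 := (((hφl 0).tendsto_at hx').pow 2).sub (((hφl 0).tendsto_at hx).pow 2)
    have h2 : φ 0 (-x) ^ 2 - φ 0 x ^ 2 = 0 := tendsto_nhds_unique h1 (h.sy x hx)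
    have h3 : (φ 0 (-x) - φ 0 x) * (φ 0 (-x) + φ 0 x) = 0 := by linear_combination h2
    rcases mul_eq_zero.1 h3 with h4 | h4
    · have h5 : -x = x := hφi 0 hx' hx (sub_eq_zero.1 h4)
      have h6 : x = 0 := by
        have : (2 : ℂ) * x = 0 := by linear_combination (-1 : ℂ) * h5
        simpa using this
      rw [h6, neg_zero, hφ0, neg_zero]
    · exact eq_neg_of_add_eq_zero_left h4
  have hbb : ∀ (s : ℕ) (x : ℂ), x ∈ ball (0 : ℂ) 1 → BB b1 α' s x ∈ ball (0 : ℂ) 1 := by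
    intro s x hx
    have hx1 : ‖x‖ < 1 := by simpa using hx
    simpa using (bb_norm s (fun i _ => ha1 i) x hx1.le).2.1 hx1
  obtain ⟨F', hF'⟩ : ∃ F' : ℕ → ℂ → ℂ, F' = fun k w => φ 0 (BB b1 α' (u k) (Function.invFunOn (φ k) (ball 0 1) w)) := ⟨_, rfl⟩
  have hrel : ∀ k, ∀ x ∈ ball (0 : ℂ) 1, F' k (φ k x) = φ 0 (BB b1 α' (u k) x) := by
    intro k x hx
    have h1 : φ k x ∈ φ k '' ball 0 1 := mem_image_of_mem _ hx
    have h2 : Function.invFunOn (φ k) (ball 0 1) (φ k x) = x :=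
      hφi k (Function.invFunOn_mem h1) hx (Function.invFunOn_eq h1)
    rw [hF']
    simp only [h2]
  have hdF : ∀ k, DifferentiableOn ℂ (F' k) (φ k '' ball 0 1) := by
    intro k w hw
    have h1 : DifferentiableAt ℂ (Function.invFunOn (φ k) (ball 0 1)) w := ih_inv isOpen_ball (hφd k) (hφi k) hw
    have h2 : Function.invFunOn (φ k) (ball 0 1) w ∈ ball (0 : ℂ) 1 := Function.invFunOn_mem hw
    have h3 : DifferentiableAt ℂ (BB b1 α' (u k)) (Function.invFunOn (φ k) (ball 0 1) w) :=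
      (bb_d1 ha1 (u k)).differentiableAt (isOpen_ball.mem_nhds h2)
    have h4 : DifferentiableAt ℂ (φ 0) (BB b1 α' (u k) (Function.invFunOn (φ k) (ball 0 1) w)) :=
      (hφd 0).differentiableAt (isOpen_ball.mem_nhds (hbb (u k) _ h2))
    have h5 : DifferentiableAt ℂ (F' k) w := by
      rw [hF']
      exact DifferentiableAt.comp (g := φ 0) w h4 (DifferentiableAt.comp (g := BB b1 α' (u k)) w h3 h1)
    exact h5.differentiableWithinAt
  have hopen : ∀ k, IsOpen (φ k '' ball 0 1) := fun k => ih_open isOpen_ball (hφd k) (hφi k)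
  have hcF0 : ∀ k, ∀ K : Set ℂ, IsCompact K → K ⊆ φ k '' ball 0 1 → ∀ ε : ℝ, 0 < ε →
      ∀ᶠ n in (𝒰 : Filter ℕ), ∀ w ∈ K, ‖F n k w - F' k w‖ < ε := by
    intro k K hK hKs ε hε
    by_contra hcon
    rw [← Ultrafilter.eventually_not] at hcon
    have h1 : ∀ n : ℕ, ∃ w : ℂ, (¬ ∀ w ∈ K, ‖F n k w - F' k w‖ < ε) → w ∈ K ∧ ε ≤ ‖F n k w - F' k w‖ := by
      intro n
      by_cases hn : ∀ w ∈ K, ‖F n k w - F' k w‖ < ε
      · exact ⟨0, fun h => absurd hn h⟩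
      · push Not at hn
        obtain ⟨w, hw1, hw2⟩ := hn
        exact ⟨w, fun _ => ⟨hw1, hw2⟩⟩
    choose w hw using h1
    obtain ⟨a, haK, hla⟩ := lim_K 𝒰 hK (v := w) (hcon.mono fun n hn => (hw n hn).1)
    obtain ⟨x, hx, hxa⟩ := hKs haK
    have hla' := hla
    rw [← hxa] at hla'
    obtain ⟨v, hv, hvx⟩ := ulim_pre 𝒰 isOpen_ball (h.dΦ k) (hφl k) (hφi k) hx hla'
    have hx1 : ‖x‖ < 1 := by simpa using hx
    have h2 : Tendsto (fun n => BB b1 (α n) (u k) (v n)) (𝒰 : Filter ℕ) (𝓝 (BB b1 α' (u k) x)) :=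
      bb_tend ha (u k) (fun i _ => ha1 i) v x hvx hx1.le
    have h3 := tl_seq isOpen_ball (hφl 0) (hφd 0).continuousOn (hbb (u k) x hx) h2
    have h4 : Tendsto (fun n => F n k (w n)) (𝒰 : Filter ℕ) (𝓝 (F' k a)) := by
      rw [← hxa, hrel k x hx]
      refine h3.congr' ?_
      filter_upwards [hv, h.rel k] with n hn1 hn2
      rw [← hn1.2, hn2 (v n) hn1.1]
    have h5 : Tendsto (fun n => F' k (w n)) (𝒰 : Filter ℕ) (𝓝 (F' k a)) :=
      ((hdF k).continuousOn.continuousAt ((hopen k).mem_nhds (hKs haK))).tendsto.comp hla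
    have h7 := (h4.sub h5).norm
    rw [sub_self, norm_zero] at h7
    obtain ⟨n, hn1, hn2⟩ := (hcon.and (h7.eventually (gt_mem_nhds hε))).exists
    have := (hw n hn1).2
    linarith
  refine ⟨φ, F', α', ⟨hφl, ha, fun k K hK hKs => uni_cK (h.dΦ k) (hφi k) (hφl k) hK hKs, ?_, hφ0, hodd, ?_,
    ha1, hcv, hφd, hφi, hopen, hdF, hrel, ?_, ?_⟩⟩
  · -- cF
    intro k
    rw [Metric.tendstoLocallyUniformlyOn_iff]
    intro e he w hw
    obtain ⟨R, hR, hRS⟩ := Metric.isOpen_iff.1 (hopen k) w hw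
    refine ⟨closedBall w (R / 2), mem_nhdsWithin_of_mem_nhds (closedBall_mem_nhds w (by positivity)), ?_⟩
    filter_upwards [hcF0 k (closedBall w (R / 2)) (isCompact_closedBall _ _)
      ((closedBall_subset_ball (by linarith)).trans hRS) e he] with n hn v hv
    rw [dist_comm, dist_eq_norm]
    exact hn v hv
  · -- bφ
    refine (isBounded_iff_forall_norm_le.2 ⟨C2, ?_⟩)
    rintro w ⟨x, hx, rfl⟩
    exact le_of_tendsto ((hφl 0).tendsto_at hx).norm (hb.mono fun n hn => hn x hx)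
  · -- off
    intro k x hx hth
    have hx1 : ‖x‖ < 1 := by simpa using hx
    refine uni_off (h.dΦ k) (hφi k) (hφl k) h.Pc hx ?_
    intro v hv
    have h5 := (bb_tend ha (u k) (fun i _ => ha1 i) v x hv hx1.le).norm
    filter_upwards [h.off k, h5.eventually (lt_mem_nhds hth)] with n hn1 hn2 hn3
    exact hn1 (v n) hn3 hn2
  · -- cr
    intro s
    have h1 : ∀ n : ℕ, ∃ x y : ℂ, (∃ x y : ℂ, ‖x‖ = r ∧ ‖y‖ < 1 ∧ ‖BB b1 (α n) (u s) y‖ = r ∧ Φ n s y = Φ n 0 x) →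
        ‖x‖ = r ∧ ‖y‖ < 1 ∧ ‖BB b1 (α n) (u s) y‖ = r ∧ Φ n s y = Φ n 0 x := by
      intro n
      by_cases hn : ∃ x y : ℂ, ‖x‖ = r ∧ ‖y‖ < 1 ∧ ‖BB b1 (α n) (u s) y‖ = r ∧ Φ n s y = Φ n 0 x
      · obtain ⟨x, y, hxy⟩ := hn
        exact ⟨x, y, fun _ => hxy⟩
      · exact ⟨0, 0, fun h => absurd h hn⟩
    choose x y hxy using h1
    have h2 : ∀ᶠ n in (𝒰 : Filter ℕ), ‖x n‖ = r ∧ ‖y n‖ < 1 ∧ ‖BB b1 (α n) (u s) (y n)‖ = r ∧ Φ n s (y n) = Φ n 0 (x n) :=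
      (h.cr s).mono fun n hn => hxy n hn
    obtain ⟨a, -, hla⟩ := lim_bd 𝒰 (v := x) (C := r) (h2.mono fun n hn => hn.1.le)
    obtain ⟨b, hb, hlb⟩ := lim_bd 𝒰 (v := y) (C := 1) (h2.mono fun n hn => hn.2.1.le)
    have hanorm : ‖a‖ = r := by
      refine tendsto_nhds_unique hla.norm ?_
      exact tendsto_const_nhds.congr' (h2.mono fun n hn => hn.1.symm)
    have h3 := (bb_tend ha (u s) (fun i _ => ha1 i) y b hlb hb).norm
    have hbnorm : ‖BB b1 α' (u s) b‖ = r := by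
      refine tendsto_nhds_unique h3 ?_
      exact tendsto_const_nhds.congr' (h2.mono fun n hn => hn.2.2.1.symm)
    have hb1 : ‖b‖ < 1 := by
      refine lt_of_le_of_ne hb fun h4 => ?_
      have h5 := (bb_norm (u s) (fun i _ => ha1 i) b hb).2.2 h4
      have h6 := h.r1
      linarith
    have ha1' : a ∈ ball (0 : ℂ) 1 := by
      simp only [mem_ball, dist_zero_right, hanorm]
      exact h.r1
    have hb1' : b ∈ ball (0 : ℂ) 1 := by simpa using hb1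
    have h7 := tl_seq isOpen_ball (hφl s) (hφd s).continuousOn hb1' hlb
    have h8 := tl_seq isOpen_ball (hφl 0) (hφd 0).continuousOn ha1' hla
    refine ⟨a, b, hanorm, hb1, hbnorm, ?_⟩
    exact tendsto_nhds_unique h7 (h8.congr' (h2.mono fun n hn => hn.2.2.2.symm))

end Pool.Agent.H23.XW2
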